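import Pool.Agent.H172.EF.Top
import Pool.Agent.Y169.TH.Mak

/-!
# Effective abundance for abelian covers of projective space branched along normal crossings

Let `F k`, `k = 0, ..., n`, be forms of degrees `d k` in `n + 1` variables whose zero sets in the
projective `n`-space are smooth hypersurfaces with normal crossings. Let `X` be a projective manifold
which is birational to an abelian cover of the projective space which is branched only along these
hypersurfaces: the function field `K` of `X` is generated by the affine coordinates
`x (b + 1) / x 0` and by roots `z j`, `z j ^ (m j) = ∏ k, (F k (x) / x 0 ^ (d k)) ^ (a j k)`, where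
`m j` divides `∑ k, a j k * d k`. Let `δ` be a bound for the degrees `d k` and `L` a common multiple
of the `m j` (for instance the exponent of the Galois group, if the `m j` are the orders of the
generators of its dual). Let `D ≥ 1` be divisible by all integers between `1` and
`(n + 1)! * δ * L ^ n`. So `D` depends only on the dimension, the degrees and the exponent.

The theorem: if `K_X` is pseudo-effective, then

(1) there are finitely many sections `s b` of `D K_X` such that along every prime divisor `P` over
`X` one of the `s b` computes the asymptotic order of vanishing of `K_X`: the order along `P` of every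
section of `m K_X`, `m ≥ 1`, is at least `m / D` times the order of `s b`, and for every divisor `A`
there is a constant `c` such that the order along `P` of every section of `m K_X + A`, `m ≥ 1`, is at
least `m / D` times the order of `s b` minus `c / D`. In other words, on a model `Y` on which the
moving part `M` of the linear system generated by the `s b` is base point free, `D K_Y = M + E`, the
divisor `E / D` is the negative part and `M / D` is the positive part of the Zariski decomposition of
`K_Y` (in the sense of Nakayama and in the sense of Cutkosky, Kawamata and Moriwaki): the positive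
part is semiample, and this holds already for its multiple by `D`;

(2) the ratios of the sections of `D K_X` contain `κ` algebraically independent functions, and for
every divisor `A` there is `C` with `h⁰ (m K_X + A) ≤ C * m ^ κ` for all `m ≥ 1`, where `κ` is the
dimension of the `polyhedron` of the regular exponents. So `κ = κ (X) = ν (X)`, and the `D`-canonical
map has an image of dimension `κ (X)`.

In particular (this consequence is not formalised) `D K_X` is generated by the sections `s b` if `X`
is a smooth model with nef `K_X`.

The vectors `v ≠ 0` of nonnegative integers, not all positive, with `m j ∣ ∑ k, a j k * v k` for all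
`j` are the `Admissible` ones: they are the multiplicities of the hypersurfaces along the divisors
over `X`. The `polyhedron` consists of the rational vectors `y` with
`∑ k, d k * y k = ∑ k, (d k - 1)` and `∑ k, v k * y k ≥ 1` for all admissible `v`; the pluricanonical
forms `∏ k, F k ^ (w k - D) * Ω ^ D` with `w / D` in the polyhedron are the sections `s b`.

The sections are functions of `n = dim X` rational vector fields, with a condition at all divisorial
places of `K`, so that they are the sections on every smooth projective model of `K`.
-/

set_option autoImplicit false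

open FF MvPolynomial Pool.Agent.W602.GT

namespace Pool.Agent.Results.MP_97d78d_ag.EffectiveAbundance

/-- The hypersurfaces `F k = 0` have normal crossings: at every point of the projective space the
gradients of the forms `F k` which vanish at this point are linearly independent. -/
def NormalCrossings {n : ℕ} (F : Fin (n + 1) → MvPolynomial (Fin (n + 1)) ℂ) : Prop :=
  ∀ x : Fin (n + 1) → ℂ, x ≠ 0 → LinearIndependent ℂ
    fun (k : {k // eval x (F k) = 0}) (l : Fin (n + 1)) => eval x (pderiv l (F k.1))

/-- The affine coordinates of the projective space. -/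
noncomputable def affine {n : ℕ} {K : Type} [Field K] (x : Fin (n + 1) → K) (b : Fin n) : K :=
  x b.succ / x 0

section

variable {n R : ℕ}

/-- The multiplicities which satisfy the divisibility conditions. -/
def Admissible (m : Fin R → ℕ) (a : Fin R → Fin (n + 1) → ℕ) (v : Fin (n + 1) → ℕ) : Prop :=
  v ≠ 0 ∧ (∃ k, v k = 0) ∧ ∀ j, m j ∣ ∑ k, a j k * v k

/-- The exponents of the regular forms. -/
def polyhedron (m : Fin R → ℕ) (a : Fin R → Fin (n + 1) → ℕ) (d : Fin (n + 1) → ℕ) :
    Set (Fin (n + 1) → ℚ) :=
  {y | ∑ k, (d k : ℚ) * y k = ∑ k, ((d k : ℚ) - 1) ∧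
    ∀ v, Admissible m a v → 1 ≤ ∑ k, (v k : ℚ) * y k}

end

section sections

/-- `ω` is a section of `m K_X + j A`: a rational section of the `m`-th power of the canonical
bundle (`IsPluri`: a function of `N` rational vector fields which is multiplied by `det B ^ m` under
a linear substitution `B`) whose order on the vector fields which are regular at `P` is at least `j`
times the order of one of the functions in `S`, for all prime divisors `P` over `X` (all divisorial
places `P` of `K`). Here `A` is the divisor which is generated by the finite set `S` of functions;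
`A = 0` if `S = {1}`. -/
def IsSection {K : Type} [Field K] [Algebra ℂ K] (N : ℕ) (S : Finset K) (m j : ℕ)
    (ω : (Fin N → Derivation ℂ K K) → K) : Prop :=
  IsPluri m ω ∧ ∀ P : Place ℂ K, Divisorial N P → ∀ D : Fin N → Derivation ℂ K K,
    (∀ c, DerReg P (D c)) → ω D = 0 ∨ ∃ s ∈ S, s ≠ 0 ∧ j * P.ord s ≤ P.ord (ω D)

variable (N : ℕ) (K : Type) [Field K] [Algebra ℂ K]

/-- There are finitely many sections `s b` of `D K_X` such that for every prime divisor `P` over `X`
one of them has the following two properties. The order along `P` of every section `ω` of `m K_X`,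
`m ≥ 1`, is at least `m / D` times the order of `s b`. For every divisor `A` (generated by `S`) there
is `c` such that the order along `P` of every section `ω` of `m K_X + A`, `m ≥ 1`, is at least
`m / D` times the order of `s b` minus `c / D`. (The orders of `s b` and of `ω` are compared at the
same vector fields `v`; the inequalities do not depend on `v`.) -/
def AsymptoticOrdersBy (D : ℕ) : Prop :=
  ∃ (r : ℕ) (s : Fin r → (Fin N → Derivation ℂ K K) → K), (∀ b, IsSection N {1} D 1 (s b)) ∧
    ∀ P : Place ℂ K, Divisorial N P → ∃ b,
      (∀ (m : ℕ) (ω : (Fin N → Derivation ℂ K K) → K), 1 ≤ m → IsSection N {1} m 1 ω →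
        ∀ v, ω v ≠ 0 → s b v ≠ 0 ∧ m * P.ord (s b v) ≤ D * P.ord (ω v)) ∧
      ∀ S : Finset K, ∃ c : ℕ, ∀ (m : ℕ) (ω : (Fin N → Derivation ℂ K K) → K), 1 ≤ m →
        IsSection N S m 1 ω → ∀ v, ω v ≠ 0 →
          s b v ≠ 0 ∧ m * P.ord (s b v) ≤ D * P.ord (ω v) + c

/-- The image of the `m`-canonical map of `X` has dimension at least `h`: there are sections of
`m K_X` whose ratios contain `h` algebraically independent functions. -/
def ImageDimGe (m h : ℕ) : Prop :=
  ∃ ω : Fin (h + 1) → (Fin N → Derivation ℂ K K) → K, (∀ b, IsSection N {1} m 1 (ω b)) ∧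
    ∃ D, ω 0 D ≠ 0 ∧ AlgebraicIndependent ℂ (fun b : Fin h => ω b.succ D / ω 0 D)

/-- `ν (X) ≤ h`: for every divisor `A` there is a constant `C` such that
`h⁰ (m K_X + A) ≤ C m ^ h` for all `m ≥ 1`. -/
def NumericalLe (h : ℕ) : Prop :=
  ∀ S : Finset K, ∃ C : ℕ, ∀ m M : ℕ, 1 ≤ m →
    (∃ ω : Fin M → (Fin N → Derivation ℂ K K) → K, LinearIndependent ℂ ω ∧
      ∀ l, IsSection N S m 1 (ω l)) → M ≤ C * m ^ h

/-- `K_X` is pseudo-effective: there is a divisor `A` such that for all `M` a positive multiple of
`M K_X + A` is effective. -/
def Pseudoeffective : Prop :=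
  ∃ S : Finset K, ∀ M : ℕ, ∃ j : ℕ, 1 ≤ j ∧ ∃ ω : (Fin N → Derivation ℂ K K) → K, ω ≠ 0 ∧
    IsSection N S (j * M) j ω

end sections

/-- **Effective abundance.** Let `X` be a projective manifold birational to an abelian cover of the
projective `n`-space which is branched along `n + 1` hypersurfaces `F k = 0` of degrees `d k ≤ δ` with
normal crossings, let `K` be the function field of `X`, and let `L` be a common multiple of the orders
`m j` of the roots. Let `D ≥ 1` be divisible by all integers between `1` and
`(n + 1)! * δ * L ^ n`. If `K_X` is pseudo-effective, then finitely many sections of `D K_X` compute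
the orders of vanishing of the sections of `m K_X`, and asymptotically those of `m K_X + A`, along all
prime divisors over `X`; and with `κ` the dimension of the polyhedron the image of the `D`-canonical
map has dimension at least `κ`, and `h⁰ (m K_X + A) ≤ C * m ^ κ` for every `A` and all `m ≥ 1`. -/
theorem result (n R : ℕ) (hn : 1 ≤ n) (d : Fin (n + 1) → ℕ) (hd : ∀ k, 1 ≤ d k)
    (F : Fin (n + 1) → MvPolynomial (Fin (n + 1)) ℂ) (hF : ∀ k, (F k).IsHomogeneous (d k))
    (hs : NormalCrossings F) (m : Fin R → ℕ) (hm : ∀ j, 1 ≤ m j) (a : Fin R → Fin (n + 1) → ℕ)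
    (hdiv : ∀ j, m j ∣ ∑ k, a j k * d k)
    (K : Type) [Field K] [Algebra ℂ K] (x : Fin (n + 1) → K) (hx0 : x 0 ≠ 0)
    (hbas : IsTranscendenceBasis ℂ (affine x)) (z : Fin R → K)
    (hz : ∀ j, z j ^ m j = ∏ k, (aeval x (F k) / x 0 ^ d k) ^ a j k)
    (hgen : IntermediateField.adjoin ℂ (Set.range (affine x) ∪ Set.range z) = ⊤)
    (δ L D : ℕ) (hδ : ∀ k, d k ≤ δ) (hL : 1 ≤ L) (hmL : ∀ j, m j ∣ L) (hD : 1 ≤ D)
    (hDd : ∀ i : ℕ, 1 ≤ i → i ≤ (n + 1).factorial * δ * L ^ n → i ∣ D)
    (hps : Pseudoeffective n K) :
    AsymptoticOrdersBy n K D ∧
    ImageDimGe n K D (Module.finrank ℚ (vectorSpan ℚ (polyhedron m a d))) ∧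
    NumericalLe n K (Module.finrank ℚ (vectorSpan ℚ (polyhedron m a d))) := by
  obtain ⟨e, rfl⟩ : ∃ e, n = e + 1 := ⟨n - 1, by omega⟩
  have hp : polyhedron m a d = Pool.Agent.Y169.TH.PiA m a d := by
    unfold polyhedron Pool.Agent.Y169.TH.PiA
    rw [Finset.sum_sub_distrib]
    simp only [Finset.sum_const, Finset.card_univ, Fintype.card_fin, nsmul_eq_mul, mul_one]
    rfl
  rw [hp]
  obtain ⟨h1, -, h3⟩ := Pool.Agent.Y169.TH.main hx0 hbas hd hF hs hm hz hdiv hgen
  have hne := h1.1 hps
  obtain ⟨Φ, rfl, C, rfl, rfl⟩ := Pool.Agent.Y169.TH.exists_cv hx0 hbas hd hF hs hm hz hdiv hgen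
  obtain ⟨⟨r, s, hs1, hs2⟩, h5, -⟩ := Pool.Agent.H172.EF.top C hL hmL hδ hDd hD hne rfl
  exact ⟨⟨r, s, hs1, fun P _ => hs2 P⟩, h5, (h3 hne).2⟩

end Pool.Agent.Results.MP_97d78d_ag.EffectiveAbundance
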