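import Pool.Agent.Q298.EF.LinOne

/-!
# Abundance for manifolds fibred by a powerful linear system

Let `X` be a projective manifold of dimension `d + e`, and `|V|` a linear system on `X` without fixed
components, of dimension `n = d + k`, whose rational map `X ⇢ ℙⁿ` has an image `Y` of dimension
`d ≥ 1`; `Y` may be any nondegenerate variety of dimension `d`, for instance rational, so that the
base of the fibration need not contribute any canonical forms. Suppose:

* (the members) `D i` (`i < q`) are finitely many members of `|V|`, in arbitrary position, which span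
  `V`, and `V` is not the direct sum of two nonzero subspaces such that each `D i` belongs to one of
  them; at every prime divisor `P` of `X` which is a component of some `D i`, some `D i'` has the
  multiplicity at least `s`, where `2 s > R (k + 1) (k + 2)` with `R = n + 2`, or `R = n + 1` if
  there are at least `n + 3` different members;
* (the fibres) let `𝓕` be the foliation on `X` by the fibres of `X ⇢ Y`, and `F` the geometric generic
  fibre, of dimension `e ≥ 1`: some positive multiple of `K_𝓕` has sections on `X` with `λ` ratios
  which are algebraically independent over the function field of `Y`, and `ν(F) ≤ λ`.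

Then `κ(X) = ν(X) = d + λ`. So if `K_X` is nef then `X` satisfies the abundance conjecture in the form
`κ(X) = ν(X)` (which by Kawamata implies that `K_X` is semiample). For instance `λ = 0`, if the
canonical bundle of the foliation is torsion or effective and `ν(F) = 0`.

The function-field language of the starting repository is used. `K` is the function field of `X`;
the prime divisors of `X` are places `P` of `K` (`Place`, `Divisorial`), `P.ord` is the order along
`P`, and `X` is given by the set of its prime divisors. The linear system is given by the finite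
dimensional space `V` of rational functions: if `a` is the minimum of the orders at `P` of the
members of `V` then the multiplicity of `P` in the divisor of the system which is given by `f ∈ V` is
`P.ord f - a`. A section of `N K_X` is an `N`-canonical form `ω` (`IsPluri`), a function of `d + e`
rational vector fields, whose value on vector fields that are regular at `P` is regular at `P`, for
all prime divisors `P` of `X`; a section of `m K_𝓕` is such a function of `e` rational vector fields
which are tangent to the fibres of `X ⇢ Y` (`FibreSection`). The geometric generic fibre has the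
field of constants `GeoConst L`, the algebraic closure of the function field `L` of `Y` in an
algebraic closure of `K`, and the function field `GeoFib L`, the compositum of it and `K`.
`NumLe k K n (fun _ => False) h` says that `ν ≤ h` for varieties of dimension `n` with function field
`K` over `k`: for every divisor `A`, given as the polar divisor of finitely many rational functions
on a smooth model, there is a constant `C` with `h⁰(m K_X + A) ≤ C m ^ h` for all `m ≥ 1`.

Proof. The lower bound for the Kodaira dimension: products of the sections of `m K_𝓕` and of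
generalised Wronskians of `V` (`Pool.Agent.TH585.SV.lin_fib`). The upper bound: the relative
algebraic closure of the function field of `Y` in `K` is finitely generated
(`Pool.Agent.Q298.EF.ess_sub`), and the numerical dimension of the total space of a fibration is at
most the sum of the dimension of the base and of the numerical dimension of the geometric generic
fibre (`Pool.Agent.Y174.easy_add`).
-/

set_option autoImplicit false

open FF Pool.Agent.W602.GT Pool.Agent.W619.TW

namespace Pool.Agent.Results.MP_97d78d_ag.FoliatedFibrations

/-- The function field of the image of the rational map which is given by the linear system `V`: the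
field generated by the quotients of the members. -/
noncomputable def ImageField {K : Type} [Field K] [Algebra ℂ K] (V : Submodule ℂ K) :
    IntermediateField ℂ K :=
  IntermediateField.adjoin ℂ {y : K | ∃ f ∈ V, ∃ g ∈ V, y = f / g}

/-- `V` is the direct sum of two nonzero subspaces such that each `φ i` belongs to one of them. -/
def Splits {q : ℕ} {K : Type} [Field K] [Algebra ℂ K] (V : Submodule ℂ K) (φ : Fin q → K) : Prop :=
  ∃ V1 V2 : Submodule ℂ K, V1 ≠ ⊥ ∧ V2 ≠ ⊥ ∧ Disjoint V1 V2 ∧ V1 ⊔ V2 = V ∧
    ∀ i, φ i ∈ V1 ∨ φ i ∈ V2

/-- There are `r` members `φ i` of which no two are proportional. -/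
def Different (r : ℕ) {q : ℕ} {K : Type} [Field K] [Algebra ℂ K] (φ : Fin q → K) : Prop :=
  ∃ τ : Fin r → Fin q, ∀ i j, i ≠ j → ∀ t : ℂ, φ (τ i) ≠ t • φ (τ j)

/-- The condition on the multiplicities, on a variety `X` of dimension `w`: if the prime divisor `P`
of `X` is a component of one of the divisors `D i` (the order of `φ i` at `P` is not the minimum `a`
of the orders of the members of `V`), then some `D i` has multiplicity at least `s` at `P`. -/
def Multiplicities (w : ℕ) {q : ℕ} {K : Type} [Field K] [Algebra ℂ K] (V : Submodule ℂ K)
    (φ : Fin q → K) (X : Set (Place ℂ K)) (s : ℕ) : Prop :=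
  ∀ P ∈ X, Divisorial w P → ∀ a : ℤ, (∀ f ∈ V, f = 0 ∨ a ≤ P.ord f) →
    (∃ f ∈ V, f ≠ 0 ∧ P.ord f = a) → (∃ i, P.ord (φ i) ≠ a) → ∃ i, a + s ≤ P.ord (φ i)

/-- `ω` is a section of `N K_X`, where `X` of dimension `w` is given by the set of its prime divisors:
an `N`-canonical form whose values on vector fields which are regular at `P` are regular at `P`, for
all prime divisors `P` of `X`. -/
def IsSection {K : Type} [Field K] [Algebra ℂ K] (w : ℕ) (X : Set (Place ℂ K)) (N : ℕ)
    (ω : (Fin w → Derivation ℂ K K) → K) : Prop :=
  IsPluri N ω ∧ ∀ P ∈ X, Divisorial w P → ∀ D : Fin w → Derivation ℂ K K,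
    (∀ i, DerReg P (D i)) → P.Reg (ω D)

/-- `κ (X) ≥ κ`: some positive multiple of `K_X` has sections with `κ` algebraically independent
ratios (a nonzero section, if `κ = 0`). -/
def KodairaGe {K : Type} [Field K] [Algebra ℂ K] (w : ℕ) (X : Set (Place ℂ K)) (κ : ℕ) : Prop :=
  ∃ N : ℕ, 0 < N ∧ ∃ ω : Fin (κ + 1) → (Fin w → Derivation ℂ K K) → K,
    (∀ j, IsSection w X N (ω j)) ∧
    ∃ D, ω 0 D ≠ 0 ∧ AlgebraicIndependent ℂ (fun i : Fin κ => ω i.succ D / ω 0 D)

/-- `θ` is a section of `m K_𝓕`, `𝓕` the foliation on `X` by the fibres of the map to the variety with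
the function field `L`: it is multiplied by `det A ^ m` under a linear substitution `A` of the `e`
rational vector fields tangent to the fibres (the derivations of `K` over `L`), and its values on
such vector fields which are regular at `P` are regular at `P`, for all prime divisors `P` of `X`. -/
def FibreSection {K : Type} [Field K] [Algebra ℂ K] (w : ℕ) (X : Set (Place ℂ K))
    (L : IntermediateField ℂ K) (m e : ℕ) (θ : (Fin e → Derivation L K K) → K) : Prop :=
  (∀ (A : Matrix (Fin e) (Fin e) K) (G : Fin e → Derivation L K K),
    θ (fun i => ∑ j, A i j • G j) = A.det ^ m * θ G) ∧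
  ∀ P ∈ X, Divisorial w P → ∀ G : Fin e → Derivation L K K,
    (∀ i f, P.Reg f → P.Reg (G i f)) → P.Reg (θ G)

/-- The relative Kodaira dimension of `K_𝓕` is at least `lam`: some positive multiple `m K_𝓕` has
sections with `lam` ratios which are algebraically independent over the function field `L` of the
base (a nonzero section, if `lam = 0`). -/
def FibreKodairaGe {K : Type} [Field K] [Algebra ℂ K] (w : ℕ) (X : Set (Place ℂ K))
    (L : IntermediateField ℂ K) (e lam : ℕ) : Prop :=
  ∃ m : ℕ, 0 < m ∧ ∃ θ : Fin (lam + 1) → (Fin e → Derivation L K K) → K,
    (∀ b, FibreSection w X L m e (θ b)) ∧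
    ∃ G, θ 0 G ≠ 0 ∧ AlgebraicIndependent L (fun i : Fin lam => θ i.succ G / θ 0 G)

/-- The field of constants of the geometric generic fibre: the algebraic closure of the function
field `L` of the base in an algebraic closure of `K`. -/
noncomputable abbrev GeoConst {K : Type} [Field K] [Algebra ℂ K] (L : IntermediateField ℂ K) :
    IntermediateField L (AlgebraicClosure K) :=
  algebraicClosure L (AlgebraicClosure K)

/-- The function field of the geometric generic fibre: the compositum of `K` and of the field of
constants. -/
noncomputable abbrev GeoFib {K : Type} [Field K] [Algebra ℂ K] (L : IntermediateField ℂ K) :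
    IntermediateField (GeoConst L) (AlgebraicClosure K) :=
  IntermediateField.adjoin (GeoConst L) (Set.range (algebraMap K (AlgebraicClosure K)))

/-- **Abundance.** Let `K` be the function field of a projective manifold `X` of dimension `d + e`,
`V` a linear system of dimension `d + k` on `X` whose rational map has an image `Y` of dimension
`d ≥ 1`; `φ i` nonzero members which span `V`, such that `V` does not split into a direct sum,
`R = d + k + 2`, or `R = d + k + 1` if there are `d + k + 3` different members, and `s` a number with
`2 s > R (k + 1) (k + 2)` for which the condition on the multiplicities holds. If the relative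
Kodaira dimension of the canonical divisor of the foliation by the fibres is at least `lam`, and the
numerical dimension of the geometric generic fibre is at most `lam`, then `κ (X) = ν (X) = d + lam`. -/
theorem result (d e k q lam : ℕ) (hd : 1 ≤ d) (he : 1 ≤ e) (K : Type) [Field K]
    [Algebra ℂ K] [Algebra.EssFiniteType ℂ K] (hK : Algebra.trdeg ℂ K = (d + e : ℕ))
    (V : Submodule ℂ K) (hn : Module.finrank ℂ V = d + k + 1)
    (hV : Algebra.trdeg ℂ (ImageField V) = d)
    (φ : Fin q → K) (hφ0 : ∀ i, φ i ≠ 0) (hφ : Submodule.span ℂ (Set.range φ) = V)
    (hγ : ¬ Splits V φ)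
    (R : ℕ) (hR : R = d + k + 2 ∨ (Different (d + k + 3) φ ∧ R = d + k + 1))
    (X : Set (Place ℂ K)) (s : ℕ) (hs : R * ((k + 1) * (k + 2)) < 2 * s)
    (h : Multiplicities (d + e) V φ X s)
    (hκ : FibreKodairaGe (d + e) X (ImageField V) e lam)
    (hν : NumLe (GeoConst (ImageField V)) (GeoFib (ImageField V)) e (fun _ => False) lam) :
    KodairaGe (d + e) X (d + lam) ∧ NumLe ℂ K (d + e) (fun _ => False) (d + lam) := by
  refine ⟨?_, Pool.Agent.Q298.EF.num_geo he hK hV hν⟩
  obtain ⟨m, hm, θ, hθ, hne⟩ := hκ
  have hs' : (R : ℝ) * (((k : ℝ) + 1) * ((k : ℝ) + 2)) < 2 * (s : ℝ) := by exact_mod_cast hs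
  obtain ⟨N, hN, ω, h5, h6⟩ := Pool.Agent.Q298.EF.lin_one hd hK hn hV hφ0 hφ hγ hR X
    (fun _ => 0) (fun _ => 0) (fun _ => 0) (fun _ _ => le_rfl) (fun _ _ => by simp) hs'
    (fun P hPX hPd a ha hb hc => by
      obtain ⟨i, h5⟩ := h P hPX hPd a ha hb hc
      refine ⟨i, ?_⟩
      have h7 : (s : ℤ) ≤ P.ord (φ i) - a := by omega
      have h8 : ((s : ℤ) : ℝ) ≤ ((P.ord (φ i) - a : ℤ) : ℝ) := by exact_mod_cast h7
      simpa using h8) hm (θ := θ) (fun b => ⟨(hθ b).1, fun P hPX hPd G hG => by
      rcases (hθ b).2 P hPX hPd G hG with h7 | h7
      · exact Or.inl h7
      · right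
        have h8 : (0 : ℝ) ≤ (P.ord (θ b G) : ℝ) := by exact_mod_cast h7
        simpa using h8⟩) hne
  refine ⟨N, hN, ω, fun j => ⟨(h5 j).1, fun P hPX hPd D hD => ?_⟩, h6⟩
  rcases (h5 j).2 P hPX hPd D hD with h7 | h7
  · exact Or.inl h7
  · right
    have h8 : (0 : ℝ) ≤ (P.ord (ω j D) : ℝ) := by simpa using h7
    exact_mod_cast h8

end Pool.Agent.Results.MP_97d78d_ag.FoliatedFibrations
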