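import Pool.Agent.Q298.EF.LinOne
import Pool.Agent.Q298.JS.Tow

/-!
# Abundance for manifolds with several linear systems and vertical zeros of the relative forms

Let `X` be a projective manifold and let `|V_1|, ..., |V_c|` be linear systems on `X` without fixed
components. Let `Y_j` be the image of the rational map of `X` to the product of the first `j`
projective spaces, a variety of the dimension `d_1 + ... + d_j` with `d_j ≥ 1`; it need not be a
product, and it may be rational. Let `V_j` be of dimension `n_j = d_j + k_j`. Let `𝓕` be the foliation
on `X` by the fibres of `X ⇢ Y = Y_c`, and `F` the geometric generic fibre, of dimension `e ≥ 1`. For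
every prime divisor `P` of `X` let `ε_1(P), ..., ε_c(P) ≥ 0` be real numbers. Suppose:

* (position) for each `j`, the images of the general fibres of `X ⇢ Y_{j-1}` (of the Stein
  factorization) in the projective space of `V_j` are nondegenerate;
* (the members) `V_j` is spanned by finitely many members `D_i` of `|V_j|`, in arbitrary position, and
  `V_j` is not the direct sum of two nonzero subspaces such that each `D_i` belongs to one of them; at
  every prime divisor `P` of `X` which is a component of some `D_i`, some `D_i'` has the multiplicity
  at least `s_j (1 - ε_j(P))`, where `2 s_j > R_j (k_j + 1) (k_j + 2)` with `R_j = n_j + 2`, or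
  `R_j = n_j + 1` if there are at least `n_j + 3` different members;
* (the fibres) some positive multiple `m K_𝓕` has sections on `X` which vanish at every prime divisor
  `P` of `X` to the order at least `m (ε_1(P) + ... + ε_c(P))`, with `λ` ratios which are algebraically
  independent over the function field of `Y`, and `ν(F) ≤ λ`.

Then `κ(X) = ν(X) = dim Y + λ`. So if `K_X` is nef then `X` satisfies the abundance conjecture in the
form `κ(X) = ν(X)` (which by Kawamata implies that `K_X` is semiample).

So zeros of the relative canonical forms can replace multiplicities: no multiplicity at all is needed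
at the prime divisors `P` with `ε_j(P) ≥ 1`, and half of the multiplicity is needed if the sections of
`m K_𝓕` vanish to the order `m / 2` at `P`. The numbers `ε_j(P)` can be chosen for each `P`: the zeros
of the sections at `P` are distributed among the linear systems. For `c = 1` and `ε = 0` this is
`Pool.Agent.Results.MP_97d78d_ag.FoliatedFibrations`.

The function-field language of the starting repository is used. `K` is the function field of `X`;
the prime divisors of `X` are places `P` of `K` (`Place`, `Divisorial`), `P.ord` is the order along
`P`, and `X` is given by the set of its prime divisors. A linear system is given by a finite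
dimensional space `V` of rational functions: if `a` is the minimum of the orders at `P` of the
members of `V` then the multiplicity of `P` in the divisor of the system which is given by `f ∈ V` is
`P.ord f - a`. A section of `N K_X` is an `N`-canonical form `ω` (`IsPluri`), a function of rational
vector fields, whose value on vector fields that are regular at `P` is regular at `P`, for
all prime divisors `P` of `X`; a section of `m K_𝓕` is such a function of `e` rational vector fields
which are tangent to the fibres of `X ⇢ Y` (`FibreSection`, with the orders of vanishing). The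
geometric generic fibre has the field of constants `GeoConst L`, the algebraic closure of the function
field `L` of `Y` in an algebraic closure of `K`, and the function field `GeoFib L`, the compositum of
it and `K`. `NumLe k K n (fun _ => False) h` says that `ν ≤ h` for varieties of dimension `n` with
function field `K` over `k`: for every divisor `A`, given as the polar divisor of finitely many
rational functions on a smooth model, there is a constant `C` with `h⁰(m K_X + A) ≤ C m ^ h` for all
`m ≥ 1`.

Proof. The generalised Wronskians of `V_j` with respect to vector fields which are tangent to the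
fibres of `X ⇢ Y_{j-1}` (`Pool.Agent.Q298.JS.RFr`) do not vanish, as the members are linearly
independent over the algebraic closure of the function field of `Y_{j-1}`. Multiplied by forms along
the fibres of `X ⇢ Y_j` they give forms along the fibres of `X ⇢ Y_{j-1}`, of which the orders at
the vertical prime divisors are controlled (`lin_stage`). The upper bound: the numerical dimension of
the total space of a fibration is at most the sum of the dimension of the base and of the numerical
dimension of the geometric generic fibre (`Pool.Agent.Y174.easy_add`, `Pool.Agent.Q298.EF.num_geo`).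
-/

set_option autoImplicit false

open FF Pool.Agent.W602.GT Pool.Agent.W619.TW

namespace Pool.Agent.Results.MP_97d78d_ag.VerticalZeros

/-- The function field of the image `Y_j` of `X` under the first `j` linear systems: the field which
is generated by the quotients of the members of each of them. -/
noncomputable def ImageField {K : Type} [Field K] [Algebra ℂ K] {c : ℕ}
    (V : Fin c → Submodule ℂ K) (j : ℕ) : IntermediateField ℂ K :=
  IntermediateField.adjoin ℂ {y : K | ∃ i : Fin c, (i : ℕ) < j ∧ ∃ f ∈ V i, ∃ g ∈ V i, y = f / g}

/-- The algebraic closure of the subfield `L` in `K`. -/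
noncomputable def ClosureIn {K : Type} [Field K] [Algebra ℂ K] (L : IntermediateField ℂ K) :
    IntermediateField ℂ K :=
  (algebraicClosure L K).restrictScalars ℂ

/-- `V` is the direct sum of two nonzero subspaces such that each `φ i` belongs to one of them. -/
def Splits {q : ℕ} {K : Type} [Field K] [Algebra ℂ K] (V : Submodule ℂ K) (φ : Fin q → K) : Prop :=
  ∃ V1 V2 : Submodule ℂ K, V1 ≠ ⊥ ∧ V2 ≠ ⊥ ∧ Disjoint V1 V2 ∧ V1 ⊔ V2 = V ∧
    ∀ i, φ i ∈ V1 ∨ φ i ∈ V2

/-- There are `r` members `φ i` of which no two are proportional. -/
def Different (r : ℕ) {q : ℕ} {K : Type} [Field K] [Algebra ℂ K] (φ : Fin q → K) : Prop :=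
  ∃ τ : Fin r → Fin q, ∀ i j, i ≠ j → ∀ t : ℂ, φ (τ i) ≠ t • φ (τ j)

/-- The condition on the multiplicities, on a variety `X` of dimension `w`: if the prime divisor `P`
of `X` is a component of one of the divisors `D i` (the order of `φ i` at `P` is not the minimum `a`
of the orders of the members of `V`), then some `D i` has multiplicity at least `s (1 - ε P)` at `P`. -/
def Multiplicities (w : ℕ) {q : ℕ} {K : Type} [Field K] [Algebra ℂ K] (V : Submodule ℂ K)
    (φ : Fin q → K) (X : Set (Place ℂ K)) (ε : Place ℂ K → ℝ) (s : ℝ) : Prop :=
  ∀ P ∈ X, Divisorial w P → ∀ a : ℤ, (∀ f ∈ V, f = 0 ∨ a ≤ P.ord f) →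
    (∃ f ∈ V, f ≠ 0 ∧ P.ord f = a) → (∃ i, P.ord (φ i) ≠ a) →
    ∃ i, s * (1 - ε P) ≤ ((P.ord (φ i) - a : ℤ) : ℝ)

/-- The hypotheses on the linear systems `V i` on a variety `X` of dimension `w`. The dimension of
`Y_j` is the sum of the `d i` with `i < j`, `V i` has the dimension `d i + k i` as a linear system
and, by `nondegenerate`, this remains true for the space which it spans over the algebraic closure of
the function field of the image under the previous linear systems. -/
structure PowerfulSystems {K : Type} [Field K] [Algebra ℂ K] (w : ℕ) (X : Set (Place ℂ K)) {c : ℕ}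
    (d k : Fin c → ℕ) (V : Fin c → Submodule ℂ K) (ε : Fin c → Place ℂ K → ℝ) : Prop where
  pos : ∀ i, 1 ≤ d i
  dim : ∀ j ≤ c, Algebra.trdeg ℂ (ImageField V j) =
    (∑ i ∈ Finset.univ.filter (fun i : Fin c => (i : ℕ) < j), d i : ℕ)
  rank : ∀ i, Module.finrank ℂ (V i) = d i + k i + 1
  nondegenerate : ∀ i : Fin c, Module.finrank (ClosureIn (ImageField V i))
    (Submodule.span (ClosureIn (ImageField V i)) (V i : Set K)) = d i + k i + 1
  members : ∀ i, ∃ (q : ℕ) (φ : Fin q → K) (R : ℕ) (s : ℝ), (∀ j, φ j ≠ 0) ∧
    Submodule.span ℂ (Set.range φ) = V i ∧ ¬ Splits (V i) φ ∧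
    (R = d i + k i + 2 ∨ (Different (d i + k i + 3) φ ∧ R = d i + k i + 1)) ∧
    (R : ℝ) * ((k i + 1) * (k i + 2)) < 2 * s ∧ Multiplicities w (V i) φ X (ε i) s

/-- `ω` is a section of `N K_X`, where `X` of dimension `w` is given by the set of its prime divisors:
an `N`-canonical form whose values on vector fields which are regular at `P` are regular at `P`, for
all prime divisors `P` of `X`. -/
def IsSection {K : Type} [Field K] [Algebra ℂ K] (w : ℕ) (X : Set (Place ℂ K)) (N : ℕ)
    (ω : (Fin w → Derivation ℂ K K) → K) : Prop :=
  IsPluri N ω ∧ ∀ P ∈ X, Divisorial w P → ∀ D : Fin w → Derivation ℂ K K,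
    (∀ i, DerReg P (D i)) → P.Reg (ω D)

/-- `κ (X) ≥ κ`: some positive multiple of `K_X` has sections with `κ` algebraically independent
ratios (a nonzero section, if `κ = 0`). -/
def KodairaGe {K : Type} [Field K] [Algebra ℂ K] (w : ℕ) (X : Set (Place ℂ K)) (κ : ℕ) : Prop :=
  ∃ N : ℕ, 0 < N ∧ ∃ ω : Fin (κ + 1) → (Fin w → Derivation ℂ K K) → K,
    (∀ j, IsSection w X N (ω j)) ∧
    ∃ D, ω 0 D ≠ 0 ∧ AlgebraicIndependent ℂ (fun i : Fin κ => ω i.succ D / ω 0 D)

/-- `θ` is a section of `m K_𝓕` which vanishes at `P` to the order at least `m * E P`, `𝓕` the
foliation on `X` by the fibres of the map to the variety with the function field `L`: it is multiplied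
by `det A ^ m` under a linear substitution `A` of the `e` rational vector fields tangent to the fibres
(the derivations of `K` over `L`), and its values on such vector fields which are regular at `P` are
zero or of order at least `m * E P` at `P`, for all prime divisors `P` of `X`. -/
def FibreSection {K : Type} [Field K] [Algebra ℂ K] (w : ℕ) (X : Set (Place ℂ K))
    (E : Place ℂ K → ℝ) (L : IntermediateField ℂ K) (m e : ℕ)
    (θ : (Fin e → Derivation L K K) → K) : Prop :=
  (∀ (A : Matrix (Fin e) (Fin e) K) (G : Fin e → Derivation L K K),
    θ (fun i => ∑ j, A i j • G j) = A.det ^ m * θ G) ∧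
  ∀ P ∈ X, Divisorial w P → ∀ G : Fin e → Derivation L K K,
    (∀ i f, P.Reg f → P.Reg (G i f)) → θ G = 0 ∨ m * E P ≤ (P.ord (θ G) : ℝ)

/-- Some positive multiple `m K_𝓕` has sections which vanish at each `P` to the order at least
`m * E P`, with `lam` ratios which are algebraically independent over the function field `L` of the
base (a nonzero section, if `lam = 0`). -/
def FibreKodairaGe {K : Type} [Field K] [Algebra ℂ K] (w : ℕ) (X : Set (Place ℂ K))
    (E : Place ℂ K → ℝ) (L : IntermediateField ℂ K) (e lam : ℕ) : Prop :=
  ∃ m : ℕ, 0 < m ∧ ∃ θ : Fin (lam + 1) → (Fin e → Derivation L K K) → K,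
    (∀ b, FibreSection w X E L m e (θ b)) ∧
    ∃ G, θ 0 G ≠ 0 ∧ AlgebraicIndependent L (fun i : Fin lam => θ i.succ G / θ 0 G)

/-- The field of constants of the geometric generic fibre: the algebraic closure of the function
field `L` of the base in an algebraic closure of `K`. -/
noncomputable abbrev GeoConst {K : Type} [Field K] [Algebra ℂ K] (L : IntermediateField ℂ K) :
    IntermediateField L (AlgebraicClosure K) :=
  algebraicClosure L (AlgebraicClosure K)

/-- The function field of the geometric generic fibre: the compositum of `K` and of the field of
constants. -/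
noncomputable abbrev GeoFib {K : Type} [Field K] [Algebra ℂ K] (L : IntermediateField ℂ K) :
    IntermediateField (GeoConst L) (AlgebraicClosure K) :=
  IntermediateField.adjoin (GeoConst L) (Set.range (algebraMap K (AlgebraicClosure K)))

theorem closure_eq {K : Type} [Field K] [Algebra ℂ K] (L : IntermediateField ℂ K) :
    ClosureIn L = Pool.Agent.Y172.acl ℂ (L : Set K) := by
  ext z
  rw [Pool.Agent.Q298.JS.mem_A]
  unfold ClosureIn
  rw [IntermediateField.mem_restrictScalars, mem_algebraicClosure_iff]

theorem PowerfulSystems.sys {K : Type} [Field K] [Algebra ℂ K] {w : ℕ} {X : Set (Place ℂ K)}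
    {c : ℕ} {d k : Fin c → ℕ} {V : Fin c → Submodule ℂ K} {ε : Fin c → Place ℂ K → ℝ}
    (h : PowerfulSystems w X d k V ε) : Pool.Agent.Q298.JS.Sys w X d k V ε := by
  refine ⟨h.pos, h.dim, h.rank, fun i => ?_, fun i => ?_⟩
  · have h1 := h.nondegenerate i
    rw [closure_eq] at h1
    exact h1
  · exact h.members i

/-- **Abundance.** Let `K` be the function field of a projective manifold `X` of dimension `d + e`,
`d` the sum of the `d i`, `V i` linear systems on `X` with `PowerfulSystems`, where the members have
the multiplicities at least `s (1 - ε i P)`. If some multiple of the canonical divisor of the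
foliation by the fibres of the map of all `V i` has sections which vanish at each prime divisor `P` of
`X` to the order at least `m` times the sum of the `ε i P`, with `lam` ratios which are algebraically
independent over the function field of the image `Y`, and the numerical dimension of the geometric
generic fibre is at most `lam`, then `κ (X) = ν (X) = d + lam`. -/
theorem result (c e lam : ℕ) (he : 1 ≤ e) (d k : Fin c → ℕ) (K : Type) [Field K]
    [Algebra ℂ K] [Algebra.EssFiniteType ℂ K] (hK : Algebra.trdeg ℂ K = (∑ i, d i + e : ℕ))
    (V : Fin c → Submodule ℂ K) (X : Set (Place ℂ K)) (ε : Fin c → Place ℂ K → ℝ)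
    (hε : ∀ i P, 0 ≤ ε i P) (hV : PowerfulSystems (∑ i, d i + e) X d k V ε)
    (hκ : FibreKodairaGe (∑ i, d i + e) X (fun P => ∑ i, ε i P) (ImageField V c) e lam)
    (hν : NumLe (GeoConst (ImageField V c)) (GeoFib (ImageField V c)) e (fun _ => False) lam) :
    KodairaGe (∑ i, d i + e) X (∑ i, d i + lam) ∧
      NumLe ℂ K (∑ i, d i + e) (fun _ => False) (∑ i, d i + lam) := by
  have hS := hV.sys
  have htr : Algebra.trdeg ℂ (ImageField V c) = (∑ i, d i : ℕ) := hS.top
  refine ⟨?_, Pool.Agent.Q298.EF.num_geo he hK htr hν⟩
  obtain ⟨m, hm, θ, hθ, hne⟩ := hκ
  obtain ⟨N, hN, ω, h5, h6⟩ := hS.main (lam := lam) hK (δ₂ := fun P => -(∑ i, ε i P))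
    (δ := fun _ => 0) (fun i P _ => hε i P) (fun P _ => by simp)
    ⟨m, hm, θ, fun b => ⟨(hθ b).1, fun P hPX hPd G hG => by
      rcases (hθ b).2 P hPX hPd G hG with h7 | h7
      · exact Or.inl h7
      · right
        simpa using h7⟩, hne⟩
  refine ⟨N, hN, ω, fun j => ⟨(h5 j).1, fun P hPX hPd D hD => ?_⟩, h6⟩
  rcases (h5 j).2 P hPX hPd D hD with h7 | h7
  · exact Or.inl h7
  · right
    have h8 : (0 : ℝ) ≤ (P.ord (ω j D) : ℝ) := by simpa using h7
    exact_mod_cast h8

end Pool.Agent.Results.MP_97d78d_ag.VerticalZeros
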